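import Pool.Agent.Results.MP_31d0eb_nt.UniformScales
import Pool.Agent.Helper341.Tup.Core

/-!
# The Hardy-Littlewood lower bound on average over all sets of `k` shifts up to `H`, for all but boundedly
# many dyadic scales `H`

For every `k` and `ε > 0` there is `K` such that for all large `N`, for all integers `H` between `K log N` and
`N` outside at most `K` dyadic ranges `[2 ^ i, 2 ^ (i + 1))`, the sum over ALL sets `D ⊂ [1, H]` with `k` elements
of the number of `m ≤ N` for which `m` and all `m + d`, `d ∈ D`, are prime is at least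
`(1 - ε) (H ^ k / k!) N / (log N) ^ (k + 1)`. This is the prediction of Hardy and Littlewood, as the sum of the
singular series of `{0} ∪ D` over these sets `D` is asymptotic to `H ^ k / k!` (Gallagher).

Convexity gives such a bound for every `H ≥ K log N` if the tuples are counted with the weights
`H - max D`, but not with the sharp cutoff.

Proof. At the good scales (starting result `MP_31d0eb_nt.UniformScales`) the primes of nearly all windows
`(n, n + H]` are uniformly distributed. Split the window at `n + h`, `h = ⌊η H⌋`: if `(n, n + H]` contains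
`a` primes, about `η a` of them are in `(n, n + h]` and each of them is followed by about `(1 - η) a` primes
in `(n + h, n + H]`. Sum over `n`: a prime is counted at most `h` times. The inequality between the means
of `a` and of `a ^ (k + 1)` and the second moment (for the exceptional windows) finish the proof.
-/

set_option autoImplicit false

open Filter Topology

namespace Pool.Agent.Results.MP_485179_nt.AverageAtMostScales

/-- `π_{k+1}(N, {0} ∪ D)`: the number of the integers `1 ≤ m ≤ N` for which `m` and all `m + d`, `d ∈ D`,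
are prime -/
def tupleCount (N : ℕ) (D : Finset ℕ) : ℕ :=
  ((Finset.Icc 1 N).filter (fun m => m.Prime ∧ ∀ d ∈ D, (m + d).Prime)).card

open Pool.Agent.H357R2.SI Pool.Agent.Helper341.Tup

theorem result (k : ℕ) (ε : ℝ) (hε : 0 < ε) : ∃ K : ℕ, ∀ᶠ N : ℕ in atTop,
    ∃ B : Finset ℕ, B.card ≤ K ∧ ∀ H : ℕ, (K : ℝ) * Real.log N ≤ H → H ≤ N →
      (∀ i ∈ B, ¬ (2 ^ i ≤ H ∧ H < 2 ^ (i + 1))) →
      (1 - ε) * ((H : ℝ) ^ k / (k.factorial : ℝ)) * (N / Real.log N ^ (k + 1)) ≤
        ∑ D ∈ (Finset.Icc 1 H).powersetCard k, (tupleCount N D : ℝ) := by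
  classical
  obtain ⟨C, hC1, N₀, hN₀3, hsm⟩ := second_moment_scales
  have hC0 : 0 < C := by linarith
  obtain ⟨c0, hc0d⟩ : ∃ c0 : ℝ, c0 = min ε 1 / (16 * ((k : ℝ) + 1)) := ⟨_, rfl⟩
  have hk0 : (0 : ℝ) ≤ k := Nat.cast_nonneg k
  have hmin0 : 0 < min ε 1 := lt_min hε one_pos
  have hmin1 : min ε 1 ≤ 1 := min_le_right _ _
  have hminε : min ε 1 ≤ ε := min_le_left _ _
  have hc0 : 0 < c0 := by rw [hc0d]; positivity
  have hc0e : c0 * (16 * ((k : ℝ) + 1)) = min ε 1 := by
    rw [hc0d]; field_simp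
  have hc016 : c0 ≤ 1 / 16 := by nlinarith
  obtain ⟨η, hηd⟩ : ∃ η : ℝ, η = c0 ^ 2 / (2 * C) := ⟨_, rfl⟩
  have hη0 : 0 < η := by rw [hηd]; positivity
  have hηC : η * (2 * C) = c0 ^ 2 := by rw [hηd]; field_simp
  have hηc : η ≤ c0 := by nlinarith
  obtain ⟨δ, hδd⟩ : ∃ δ : ℝ, δ = c0 * η / 4 := ⟨_, rfl⟩
  have hδ0 : 0 < δ := by rw [hδd]; positivity
  have hδη : δ ≤ η := by rw [hδd]; nlinarith
  obtain ⟨K₀, hK₀⟩ := Pool.Agent.Results.MP_31d0eb_nt.UniformScales.result δ hδ0
  obtain ⟨K, hKd⟩ : ∃ K : ℕ, K = K₀ + ⌈(k : ℝ) / δ⌉₊ + ⌈2 / η⌉₊ + 1 := ⟨_, rfl⟩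
  have hKK₀ : (K₀ : ℝ) ≤ K := by exact_mod_cast (by omega : K₀ ≤ K)
  have hK1 : (k : ℝ) / δ ≤ K := by
    refine (Nat.le_ceil _).trans ?_
    exact_mod_cast (by omega : ⌈(k : ℝ) / δ⌉₊ ≤ K)
  have hK2 : 2 / η ≤ K := by
    refine (Nat.le_ceil _).trans ?_
    exact_mod_cast (by omega : ⌈2 / η⌉₊ ≤ K)
  have hK3 : (1 : ℝ) ≤ K := by exact_mod_cast (by omega : 1 ≤ K)
  refine ⟨K, ?_⟩
  have hlog : Tendsto (fun n : ℕ => Real.log (n : ℝ)) atTop atTop :=
    Real.tendsto_log_atTop.comp tendsto_natCast_atTop_atTop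
  filter_upwards [hK₀, mean_ge (c0 / 20) (by positivity) (by linarith),
    eventually_ge_atTop N₀, hlog.eventually_ge_atTop 1] with N hB hmean hNN₀ hL1
  obtain ⟨B, hBK, hB⟩ := hB
  refine ⟨B, by omega, fun H hH1 hH2 hH3 => ?_⟩
  have hL0 : 0 < Real.log N := by linarith
  have hNpos : 0 < N := by omega
  have hHK : (K : ℝ) ≤ H := by nlinarith
  have hHr : (0 : ℝ) < H := by linarith
  have hHpos : 0 < H := by exact_mod_cast hHr
  have hHN : (H : ℝ) ≤ N := by exact_mod_cast hH2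
  have hZ := hB H ((mul_le_mul_of_nonneg_right hKK₀ hL0.le).trans hH1) hH2 hH3
  obtain ⟨h, hh⟩ : ∃ h : ℕ, h = ⌊η * (H : ℝ)⌋₊ := ⟨_, rfl⟩
  have hh1 : (h : ℝ) ≤ η * H := by rw [hh]; exact Nat.floor_le (by positivity)
  have hh2 : η * H < h + 1 := by rw [hh]; exact Nat.lt_floor_add_one _
  have hη2H : 2 ≤ η * H := by
    have := hK2.trans hHK
    rwa [div_le_iff₀ hη0, mul_comm] at this
  have hr1 : η / 2 ≤ (h : ℝ) / H := by
    rw [le_div_iff₀ hHr]; linarith
  have hr2 : (h : ℝ) / H ≤ η := by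
    rw [div_le_iff₀ hHr]; exact hh1
  have hhH : h ≤ H := by
    have h1 : (h : ℝ) ≤ H := by
      have h2 : η * H ≤ 1 * H := mul_le_mul_of_nonneg_right (by linarith) hHr.le
      linarith
    exact_mod_cast h1
  -- the good windows
  obtain ⟨G, hGd⟩ : ∃ G : Finset ℕ, G = (Finset.range N).filter (fun n => n + h ≤ N ∧
    |(pc n (n + h) : ℝ) - (h : ℝ) / H * pc n (n + H)| ≤ δ * (H / Real.log N)) := ⟨_, rfl⟩
  have hGmem : ∀ n, n ∈ G ↔ n < N ∧ n + h ≤ N ∧
      |(pc n (n + h) : ℝ) - (h : ℝ) / H * pc n (n + H)| ≤ δ * (H / Real.log N) := by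
    intro n
    rw [hGd, Finset.mem_filter, Finset.mem_range]
  have hZfin : {n : ℕ | n < N ∧ ∃ h' ≤ H, δ * H / Real.log N <
        |(Pool.Agent.Results.MP_31d0eb_nt.UniformScales.primesIn n (n + h') : ℝ) -
          h' / H * (Pool.Agent.Results.MP_31d0eb_nt.UniformScales.primesIn n (n + H) : ℝ)|}.Finite :=
    (Set.finite_Iio N).subset fun n hn => hn.1
  have hcard : ((Finset.range N \ G).card : ℝ) ≤ 2 * η * N := by
    have hsub : Finset.range N \ G ⊆ Finset.Ico (N - h) N ∪ hZfin.toFinset := by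
      intro n hn
      rw [Finset.mem_sdiff, Finset.mem_range, hGmem] at hn
      obtain ⟨hn1, hn2⟩ := hn
      rw [Finset.mem_union, Finset.mem_Ico]
      by_cases hn3 : n + h ≤ N
      · right
        rw [Set.Finite.mem_toFinset]
        refine ⟨hn1, h, hhH, ?_⟩
        by_contra hcon
        push Not at hcon
        apply hn2
        refine ⟨hn1, hn3, ?_⟩
        rw [← mul_div_assoc]
        exact hcon
      · left
        omega
    have h1 := (Finset.card_le_card hsub).trans (Finset.card_union_le _ _)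
    rw [Nat.card_Ico, ← Set.ncard_eq_toFinset_card _ hZfin] at h1
    have h2 : ((Finset.range N \ G).card : ℝ) ≤ h + δ * N := by
      have h3 : ((Finset.range N \ G).card : ℝ) ≤ ((N - (N - h) : ℕ) : ℝ) +
          ({n : ℕ | n < N ∧ ∃ h' ≤ H, δ * H / Real.log N <
        |(Pool.Agent.Results.MP_31d0eb_nt.UniformScales.primesIn n (n + h') : ℝ) -
          h' / H * (Pool.Agent.Results.MP_31d0eb_nt.UniformScales.primesIn n (n + H) : ℝ)|}.ncard
            : ℝ) := by exact_mod_cast h1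
      have h4 : ((N - (N - h) : ℕ) : ℝ) ≤ h := by
        exact_mod_cast (by omega : N - (N - h) ≤ h)
      linarith
    have h5 : η * (H : ℝ) ≤ η * N := mul_le_mul_of_nonneg_left hHN hη0.le
    have h6 : δ * (N : ℝ) ≤ η * N := mul_le_mul_of_nonneg_right hδη (Nat.cast_nonneg _)
    linarith
  have hmom : ∑ n ∈ Finset.range N, (pc n (n + H) : ℝ) ^ 2 ≤ C * N * (H / Real.log N) ^ 2 := by
    refine (hsm N H hNN₀ ?_ hH2).trans (le_of_eq ?_)
    · nlinarith
    · rw [div_pow]; ring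
  have hmean' : (1 - c0) * N * (H / Real.log N) ≤ ∑ n ∈ Finset.range N, (pc n (n + H) : ℝ) := by
    refine le_trans (le_of_eq ?_) (hmean H hH2)
    have : 20 * (c0 / 20) = c0 := by ring
    rw [this]; ring
  have hkδ : (k : ℝ) ≤ δ * (H / Real.log N) := by
    have h1 : (K : ℝ) ≤ H / Real.log N := by rw [le_div_iff₀ hL0]; exact hH1
    have h2 := hK1.trans h1
    rwa [div_le_iff₀ hδ0, mul_comm] at h2
  have hκC : 2 * η * C ≤ c0 ^ 2 := by rw [← hηC]; exact le_of_eq (by ring)
  have hη12 : η ≤ 1 / 2 := le_trans hηc (le_trans hc016 (by norm_num))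
  have hc13 : c0 < 1 / 3 := lt_of_le_of_lt hc016 (by norm_num)
  have hGsub : G ⊆ Finset.range N := by rw [hGd]; exact Finset.filter_subset _ _
  have hcore := core k N H h (Real.log N) δ η c0 C (2 * η) hL0 hHpos hNpos hη0 hη12 hr1 hr2
    hc0 hc13 hδd hkδ hC0 hκC G hGsub
    (fun n hn => ((hGmem n).1 hn).2.1) (fun n hn => ((hGmem n).1 hn).2.2) hhH hcard hmom hmean'
  have hsum : ∑ D ∈ (Finset.Icc 1 H).powersetCard k, (tupleCount N D : ℝ) =
      ((∑ p ∈ (Finset.Icc 1 N).filter Nat.Prime, (pc p (p + H)).choose k : ℕ) : ℝ) := by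
    rw [← sum_shifts k N H]
    push_cast
    rfl
  rw [hsum]
  refine le_trans ?_ hcore
  apply mul_le_mul_of_nonneg_right _ (by positivity)
  apply mul_le_mul_of_nonneg_right _ (by positivity)
  have h1 : (k : ℝ) * η ≤ (k + 1) * c0 := by
    have h2 : (k : ℝ) * η ≤ k * c0 := mul_le_mul_of_nonneg_left hηc hk0
    have h3 : ((k : ℝ) + 1) * c0 = k * c0 + c0 := by ring
    linarith only [h2, h3, hc0]
  have h2 : ((k : ℝ) + 1) * (3 * c0) + (k + 1) * c0 = min ε 1 / 4 := by rw [← hc0e]; ring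
  linarith only [h1, h2, hminε, hmin0]

end Pool.Agent.Results.MP_485179_nt.AverageAtMostScales
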